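import Pool.Agent.L7h12.SV.Stm

/-! # Project SV (helper12): assembly -/

set_option autoImplicit false

noncomputable section

namespace Pool.Agent.L7h12.SV

open Polynomial Set

namespace Asm

/-- the number of critical points -/
def crit (p : ℝ[X]) : ℤ := (p.derivative.roots.toFinset.card : ℤ)

theorem mem_crit {p : ℝ[X]} (h : p.derivative ≠ 0) (r : ℝ) :
    r ∈ p.derivative.roots.toFinset ↔ ¬ Rg p r := by
  rw [Multiset.mem_toFinset, mem_roots h]
  unfold Rg IsRoot
  simp

theorem col_le (p : ℝ[X]) (x : ℝ) : col p x ≤ crit p := by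
  unfold col crit
  exact_mod_cast Finset.card_filter_le _ _

theorem col_nonneg (p : ℝ[X]) (x : ℝ) : 0 ≤ col p x := by
  unfold col; positivity

theorem right_of_col {p : ℝ[X]} (h : p.derivative ≠ 0) {x : ℝ} (hc : col p x = crit p) :
    ∀ s, x ≤ s → Rg p s := by
  intro s hs
  by_contra hr
  have hm := (mem_crit h s).2 hr
  have : p.derivative.roots.toFinset.filter (· < x) = p.derivative.roots.toFinset := by
    apply Finset.eq_of_subset_of_card_le (Finset.filter_subset _ _)
    unfold col crit at hc
    have : (p.derivative.roots.toFinset.filter (· < x)).card = p.derivative.roots.toFinset.card := by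
      exact_mod_cast hc
    exact this.ge
  rw [← this, Finset.mem_filter] at hm
  linarith [hm.2]

theorem col_of_right {p : ℝ[X]} (h : p.derivative ≠ 0) {x : ℝ} (hr : ∀ s, x ≤ s → Rg p s) :
    col p x = crit p := by
  unfold col crit
  rw [Finset.filter_true_of_mem]
  intro r hrm
  by_contra hx
  exact (mem_crit h r).1 hrm (hr r (not_lt.1 hx))

theorem left_of_col {p : ℝ[X]} (h : p.derivative ≠ 0) {x : ℝ} (hx : Rg p x) (hc : col p x = 0) :
    ∀ s, s ≤ x → Rg p s := by
  intro s hs
  by_contra hr
  have hm := (mem_crit h s).2 hr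
  have hlt : s < x := lt_of_le_of_ne hs (fun e => hr (e ▸ hx))
  unfold col at hc
  have h0 : (p.derivative.roots.toFinset.filter (· < x)).card = 0 := by exact_mod_cast hc
  rw [Finset.card_eq_zero] at h0
  have : s ∈ p.derivative.roots.toFinset.filter (· < x) := Finset.mem_filter.2 ⟨hm, hlt⟩
  rw [h0] at this
  exact absurd this (Finset.notMem_empty _)

theorem col_of_left {p : ℝ[X]} (h : p.derivative ≠ 0) {x : ℝ} (hr : ∀ s, s ≤ x → Rg p s) :
    col p x = 0 := by
  unfold col
  rw [Finset.filter_false_of_mem]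
  · simp
  · intro r hrm hx
    exact (mem_crit h r).1 hrm (hr r hx.le)

theorem crit_le {p : ℝ[X]} (h : p.derivative.natDegree = 7) : crit p ≤ 7 := by
  unfold crit
  have : p.derivative.roots.toFinset.card ≤ 7 := by
    calc _ ≤ p.derivative.roots.card := Multiset.toFinset_card_le _
      _ ≤ p.derivative.natDegree := card_roots' _
      _ = 7 := h
  exact_mod_cast this

theorem crit_pos {p : ℝ[X]} (h : p.derivative ≠ 0) (hr : ∃ r, ¬ Rg p r) : 1 ≤ crit p := by
  obtain ⟨r, hr⟩ := hr
  unfold crit
  have : 0 < p.derivative.roots.toFinset.card := Finset.card_pos.2 ⟨r, (mem_crit h r).2 hr⟩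
  exact_mod_cast this

/-- beyond a large bound there are no critical points -/
theorem crit_bdd (p : ℝ[X]) (h : p.derivative ≠ 0) : ∃ R : ℝ, 0 < R ∧ ∀ s, R < |s| → Rg p s := by
  obtain ⟨R, hR⟩ := (p.derivative.roots.toFinset : Set ℝ).toFinite.isCompact.isBounded.exists_norm_le
  refine ⟨max R 1, lt_of_lt_of_le one_pos (le_max_right _ _), fun s hs => ?_⟩
  by_contra hr
  have := hR s (Finset.mem_coe.2 ((mem_crit h s).2 hr))
  rw [Real.norm_eq_abs] at this
  exact absurd (lt_of_le_of_lt (this.trans (le_max_left R 1)) hs) (lt_irrefl _)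

end Asm

open Asm

/-- the bound, `p` with positive leading coefficient -/
theorem core (hSAME : S_SAME) (hUD : S_UPDOWN) (hEVN : S_EVN) (hC1 : S_CMB1) (hC2 : S_CMB2)
    (hPIE : S_PIE) (hNSA : S_NSA) (hRGP : S_RGP) (hINF : S_INF) (hNI : S_NOINF)
    {k : ℕ} {F : MvPolynomial (Fin 3) ℝ} {C : Fin k → Set (Fin 3 → ℝ)} {p f : ℝ[X]}
    (hF : F.IsHomogeneous 8) (hH : Hom8 F p f) (hN : Pool.Agent.L7h17.OC.Nonsing F)
    (hS : Spl k F C) (hp : 0 < p.leadingCoeff) : k ≤ 16 := by
  classical
  obtain ⟨hp7, ⟨Mp, hMp⟩, hcp, hlp, hrp⟩ := hEVN p hH.1 hp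
  have hfl : f.leadingCoeff ≠ 0 := by
    intro h0
    rw [leadingCoeff_eq_zero] at h0
    have := hH.2.1
    rw [h0, natDegree_zero] at this
    omega
  have hf7 : f.derivative.natDegree = 7 := by
    rcases lt_or_gt_of_ne hfl with h | h
    · have := (hEVN (-f) (by rw [natDegree_neg]; exact hH.2.1) (by rw [leadingCoeff_neg]; linarith)).1
      rwa [derivative_neg, natDegree_neg] at this
    · exact (hEVN f hH.2.1 h).1
  have hp0 : p.derivative ≠ 0 := by
    intro h0; rw [h0, natDegree_zero] at hp7; omega
  have hf0 : f.derivative ≠ 0 := by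
    intro h0; rw [h0, natDegree_zero] at hf7; omega
  have hns : NS p f := hNSA F p f hF hH hN
  obtain ⟨hpie, hdis⟩ := hPIE k F C p f hH hS
  let A := crit p
  let B := crit f
  have hA7 : A ≤ 7 := crit_le hp7
  have hB7 : B ≤ 7 := crit_le hf7
  let U : Finset (ℤ × ℤ) := Finset.Icc 0 7 ×ˢ Finset.Icc 0 7
  have hU : U.card = 64 := by decide
  let T : Fin k → Set (ℤ × ℤ) := fun i => {t | Cell p f (aff (C i)) t.1 t.2}
  have hTr : ∀ i, ∀ t ∈ T i, 0 ≤ t.1 ∧ t.1 ≤ A ∧ 0 ≤ t.2 ∧ t.2 ≤ B := by
    rintro i t ⟨w, hw, h1, h2, h3, h4⟩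
    rw [← h3, ← h4]
    exact ⟨col_nonneg _ _, col_le _ _, col_nonneg _ _, col_le _ _⟩
  let TF : Fin k → Finset (ℤ × ℤ) := fun i => U.filter (fun t => Cell p f (aff (C i)) t.1 t.2)
  have hTF : ∀ i, ((TF i : Finset (ℤ × ℤ)) : Set (ℤ × ℤ)) = T i := by
    intro i
    ext t
    simp only [TF, Finset.coe_filter]
    constructor
    · intro h; exact h.2
    · intro h
      have := hTr i t h
      refine ⟨?_, h⟩
      simp only [U, Finset.mem_product, Finset.mem_Icc]
      exact ⟨⟨this.1, this.2.1.trans hA7⟩, ⟨this.2.2.1, this.2.2.2.trans hB7⟩⟩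
  have hTfin : ∀ i, (T i).Finite := fun i => by rw [← hTF i]; exact Finset.finite_toSet _
  -- different pieces have different cells
  have hTdis : ∀ i j, i ≠ j → Disjoint (TF i) (TF j) := by
    intro i j hij
    rw [Finset.disjoint_left]
    intro t hi hj
    have hi' := (Finset.mem_filter.1 hi).2
    have hj' := (Finset.mem_filter.1 hj).2
    obtain ⟨w, hw, h1, h2, h3, h4⟩ := hi'
    obtain ⟨w', hw', g1, g2, g3, g4⟩ := hj'
    have := hSAME p f _ hp0 hf0 (hpie i) w hw w' ((hpie j).sub hw') h1 h2 g1 g2
      (h3.trans g3.symm) (h4.trans g4.symm)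
    exact Set.disjoint_left.1 (hdis i j hij) this hw'
  -- every piece has an affine point
  have hpt : ∀ i, (aff (C i)).Nonempty := by
    intro i
    obtain ⟨v, hv⟩ := hS.ne i
    have hvF : v ∈ Pool.Agent.L7h17.OC.realCone F := by
      rw [← hS.cov]; exact Set.mem_iUnion.2 ⟨i, hv⟩
    by_cases h2 : v 2 = 0
    · rcases lt_or_gt_of_ne hfl with h | h
      · exact absurd h2 (hNI F p f hH (mul_neg_of_pos_of_neg hp h) v hvF)
      · obtain ⟨i1, i2, i3⟩ := hINF k F C p f hH hS hp h
        obtain ⟨c, hc, hcC⟩ := i3 i v hv h2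
        obtain ⟨⟨w, hw, _⟩, _⟩ := i2 c i hc hcC 0
        exact ⟨w, hw⟩
    · refine ⟨(v 0 / v 2, v 1 / v 2), ?_⟩
      have := hS.cone i v hv (v 2)⁻¹ (inv_ne_zero h2)
      have e : ![v 0 / v 2, v 1 / v 2, 1] = (v 2)⁻¹ • v := by
        ext j
        fin_cases j
        · simp [div_eq_inv_mul]
        · simp [div_eq_inv_mul]
        · simp [h2]
      show ![v 0 / v 2, v 1 / v 2, 1] ∈ C i
      rw [e]; exact this
  have hTne : ∀ i, (T i).Nonempty := by
    intro i
    obtain ⟨w, hw, h1, h2⟩ := hRGP p f _ hp0 hf0 hns (hpie i) (hpt i)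
    exact ⟨(col p w.1, col f w.2), w, hw, h1, h2, rfl, rfl⟩
  -- the lower end is never at infinity
  have hdown : ∀ (x : ℝ) (σ : ℝ), ¬ UpInf (-p) x σ := by
    intro x σ h
    obtain ⟨x', _, hx'⟩ := h.2.2 (-Mp)
    rw [eval_neg] at hx'
    linarith [hMp x']
  -- four cells
  have hfour : ∀ i, 4 ≤ (T i).ncard := by
    intro i
    rcases lt_or_gt_of_ne hfl with hneg | hpos
    · -- no points at infinity
      obtain ⟨_, ⟨Mf, hMf⟩, _⟩ := hEVN (-f) (by rw [natDegree_neg]; exact hH.2.1)
        (by rw [leadingCoeff_neg]; linarith)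
      refine hC1 (T i) (hTfin i) (hTne i) ?_
      rintro ⟨a, b⟩ ⟨w, hw, h1, h2, h3, h4⟩
      simp only at h3 h4
      obtain ⟨σ, τ, hσ, hτ, _, _, hup, hdn⟩ := hUD p f _ (by omega) (by omega) hns (hpie i) w hw h1 h2
      rw [h3, h4] at hup hdn
      refine ⟨σ, τ, hσ, hτ, ?_, ?_⟩
      · rcases hup with h | h | ⟨_, h⟩
        · exact Or.inl h
        · exact Or.inr h
        · exfalso
          obtain ⟨y, _, hy⟩ := h.2.2 (-Mf)
          have := hMf y
          rw [eval_neg] at this
          linarith
      · rcases hdn with h | h | ⟨h, _⟩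
        · exact Or.inl h
        · exact Or.inr h
        · exact absurd h (hdown _ _)
    · -- points at infinity
      obtain ⟨_, _, hcf, hlf, hrf⟩ := hEVN f hH.2.1 hpos
      obtain ⟨i1, i2, i3⟩ := hINF k F C p f hH hS hp hpos
      refine hC2 A B (T i) (crit_pos hp0 hcp) (crit_pos hf0 hcf) (hTfin i) (hTne i) (hTr i) ?_
      rintro ⟨a, b⟩ ⟨w, hw, h1, h2, h3, h4⟩
      simp only at h3 h4
      obtain ⟨σ, τ, hσ, hτ, hσp, hτf, hup, hdn⟩ :=
        hUD p f _ (by omega) (by omega) hns (hpie i) w hw h1 h2
      rw [h3, h4] at hup hdn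
      refine ⟨σ, τ, hσ, hτ, ?_, ?_, ?_, ?_, ?_, ?_⟩
      · intro ha
        rcases hσ with h | h
        · exact h
        · exfalso
          have := hrp w.1 (right_of_col hp0 (h3.trans ha))
          rw [h] at hσp; push_cast at hσp; linarith
      · intro ha
        rcases hσ with h | h
        · exfalso
          have := hlp w.1 (left_of_col hp0 h1 (h3.trans ha))
          rw [h] at hσp; push_cast at hσp; linarith
        · exact h
      · intro hb
        rcases hτ with h | h
        · exact h
        · exfalso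
          have := hrf w.2 (right_of_col hf0 (h4.trans hb))
          rw [h] at hτf; push_cast at hτf; linarith
      · intro hb
        rcases hτ with h | h
        · exfalso
          have := hlf w.2 (left_of_col hf0 h2 (h4.trans hb))
          rw [h] at hτf; push_cast at hτf; linarith
        · exact h
      · rcases hup with h | h | ⟨hu, hv⟩
        · exact Or.inl h
        · exact Or.inr (Or.inl h)
        · right; right
          -- the corner
          have ha : (σ = 1 ∧ a = A) ∨ (σ = -1 ∧ a = 0) := by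
            rcases hσ with h | h
            · left
              refine ⟨h, ?_⟩
              rw [← h3]
              apply col_of_right hp0
              intro s hs
              apply hu.2.1 s
              rw [h]; push_cast; linarith
            · right
              refine ⟨h, ?_⟩
              rw [← h3]
              apply col_of_left hp0
              intro s hs
              apply hu.2.1 s
              rw [h]; push_cast; linarith
          have hb : (τ = 1 ∧ b = B) ∨ (τ = -1 ∧ b = 0) := by
            rcases hτ with h | h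
            · left
              refine ⟨h, ?_⟩
              rw [← h4]
              apply col_of_right hf0
              intro s hs
              apply hv.2.1 s
              rw [h]; push_cast; linarith
            · right
              refine ⟨h, ?_⟩
              rw [← h4]
              apply col_of_left hf0
              intro s hs
              apply hv.2.1 s
              rw [h]; push_cast; linarith
          -- the point at infinity
          obtain ⟨c0, hc0, hc8⟩ : ∃ c0 : ℝ, 0 < c0 ∧ p.leadingCoeff = f.leadingCoeff * c0 ^ 8 := by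
            refine ⟨(p.leadingCoeff / f.leadingCoeff) ^ ((1 : ℝ) / 8), by positivity, ?_⟩
            rw [← Real.rpow_natCast, ← Real.rpow_mul (by positivity)]
            norm_num
            field_simp
          obtain ⟨Rp, hRp0, hRp⟩ := crit_bdd p hp0
          obtain ⟨Rf, hRf0, hRf⟩ := crit_bdd f hf0
          have key : ∀ c : ℝ, c ≠ 0 → p.leadingCoeff = f.leadingCoeff * c ^ 8 →
              ∃ j, ∃ w1 ∈ aff (C j), ∃ w2 ∈ aff (C j), Rp < w1.1 ∧ Rf * |c| < c * w1.2 ∧
                w2.1 < -Rp ∧ c * w2.2 < - (Rf * |c|) := by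
            intro c hc hc'
            obtain ⟨j, hj⟩ := i1 c hc hc'
            obtain ⟨⟨w1, hw1, g1, g2⟩, w2, hw2, g3, g4⟩ := i2 c j hc hj (max Rp (Rf * |c|))
            refine ⟨j, w1, hw1, w2, hw2, lt_of_le_of_lt (le_max_left _ _) g1,
              lt_of_le_of_lt (le_max_right _ _) g2, ?_, ?_⟩
            · have := le_max_left Rp (Rf * |c|); linarith
            · have := le_max_right Rp (Rf * |c|); linarith
          -- columns of far points
          have cR : ∀ {q : ℝ[X]} {R : ℝ}, q.derivative ≠ 0 → (∀ s, R < |s| → Rg q s) → ∀ x, R < x →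
              0 < R → Rg q x ∧ col q x = crit q := by
            intro q R hq0 hR x hx hR0
            have h' : ∀ s, x ≤ s → Rg q s := by
              intro s hs; apply hR; rw [abs_of_pos (by linarith)]; linarith
            exact ⟨h' x le_rfl, col_of_right hq0 h'⟩
          have cL : ∀ {q : ℝ[X]} {R : ℝ}, q.derivative ≠ 0 → (∀ s, R < |s| → Rg q s) → ∀ x, x < -R →
              0 < R → Rg q x ∧ col q x = 0 := by
            intro q R hq0 hR x hx hR0
            have h' : ∀ s, s ≤ x → Rg q s := by
              intro s hs; apply hR; rw [abs_of_neg (by linarith)]; linarith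
            exact ⟨h' x le_rfl, col_of_left hq0 h'⟩
          have fin : ∀ {j : Fin k} {u v : ℝ × ℝ}, u ∈ aff (C j) → v ∈ aff (C j) → Rg p u.1 → Rg f u.2 →
              col p u.1 = a → col f u.2 = b → Rg p v.1 → Rg f v.2 → col p v.1 = A - a →
              col f v.2 = B - b → (A - a, B - b) ∈ T i := by
            intro j u v hu hv r1 r2 r3 r4 r5 r6 r7 r8
            have hij : j = i := by
              by_contra hne
              have := hSAME p f _ hp0 hf0 (hpie i) w hw u ((hpie j).sub hu) h1 h2 r1 r2
                (h3.trans r3.symm) (h4.trans r4.symm)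
              exact Set.disjoint_left.1 (hdis j i hne) hu this
            subst hij
            exact ⟨v, hv, r5, r6, r7, r8⟩
          refine ⟨?_, ?_, ?_⟩
          · rcases ha with ⟨_, h⟩ | ⟨_, h⟩
            · exact Or.inr h
            · exact Or.inl h
          · rcases hb with ⟨_, h⟩ | ⟨_, h⟩
            · exact Or.inr h
            · exact Or.inl h
          · show (A - a, B - b) ∈ T i
            have hpow : ∀ c : ℝ, (-c) ^ 8 = c ^ 8 := fun c => by ring
            -- far points for `c = c0` and `c = -c0`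
            obtain ⟨j, w1, hw1, w2, hw2, g1, g2, g3, g4⟩ := key c0 hc0.ne' hc8
            obtain ⟨j', v1, hv1, v2, hv2, k1, k2, k3, k4⟩ :=
              key (-c0) (neg_ne_zero.2 hc0.ne') (by rw [hpow]; exact hc8)
            rw [abs_of_pos hc0] at g2 g4
            rw [abs_neg, abs_of_pos hc0] at k2 k4
            have g2' : Rf < w1.2 := by
              by_contra h; push Not at h; nlinarith
            have g4' : w2.2 < -Rf := by
              by_contra h; push Not at h; nlinarith
            have k2' : v1.2 < -Rf := by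
              by_contra h; push Not at h; nlinarith
            have k4' : Rf < v2.2 := by
              by_contra h; push Not at h; nlinarith
            have W1x := cR hp0 hRp _ g1 hRp0
            have W1y := cR hf0 hRf _ g2' hRf0
            have W2x := cL hp0 hRp _ g3 hRp0
            have W2y := cL hf0 hRf _ g4' hRf0
            have V1x := cR hp0 hRp _ k1 hRp0
            have V1y := cL hf0 hRf _ k2' hRf0
            have V2x := cL hp0 hRp _ k3 hRp0
            have V2y := cR hf0 hRf _ k4' hRf0
            rcases ha with ⟨_, ha⟩ | ⟨_, ha⟩ <;> rcases hb with ⟨_, hb⟩ | ⟨_, hb⟩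
            · exact fin hw1 hw2 W1x.1 W1y.1 (by rw [W1x.2, ha]) (by rw [W1y.2, hb]) W2x.1 W2y.1
                (by rw [W2x.2, ha]; ring) (by rw [W2y.2, hb]; ring)
            · exact fin hv1 hv2 V1x.1 V1y.1 (by rw [V1x.2, ha]) (by rw [V1y.2, hb]) V2x.1 V2y.1
                (by rw [V2x.2, ha]; ring) (by rw [V2y.2, hb]; ring)
            · exact fin hv2 hv1 V2x.1 V2y.1 (by rw [V2x.2, ha]) (by rw [V2y.2, hb]) V1x.1 V1y.1
                (by rw [V1x.2, ha]; ring) (by rw [V1y.2, hb]; ring)
            · exact fin hw2 hw1 W2x.1 W2y.1 (by rw [W2x.2, ha]) (by rw [W2y.2, hb]) W1x.1 W1y.1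
                (by rw [W1x.2, ha]; ring) (by rw [W1y.2, hb]; ring)
      · rcases hdn with h | h | ⟨h, _⟩
        · exact Or.inl h
        · exact Or.inr h
        · exact absurd h (hdown _ _)
  -- counting
  have hcard : ∀ i, 4 ≤ (TF i).card := by
    intro i
    have := hfour i
    rwa [← hTF i, Set.ncard_coe_finset] at this
  have h1 : (Finset.univ.biUnion TF).card = ∑ i, (TF i).card :=
    Finset.card_biUnion fun i _ j _ hij => hTdis i j hij
  have h2 : (Finset.univ.biUnion TF).card ≤ 64 := by
    rw [← hU]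
    exact Finset.card_le_card (Finset.biUnion_subset.2 fun i _ => Finset.filter_subset _ _)
  have h3 : k * 4 ≤ ∑ i, (TF i).card := by
    calc k * 4 = ∑ _i : Fin k, 4 := by simp
      _ ≤ _ := Finset.sum_le_sum fun i _ => hcard i
  omega

/-- the bound for a separated form -/
theorem bound (hSAME : S_SAME) (hUD : S_UPDOWN) (hEVN : S_EVN) (hC1 : S_CMB1) (hC2 : S_CMB2)
    (hPIE : S_PIE) (hNSA : S_NSA) (hRGP : S_RGP) (hINF : S_INF) (hNI : S_NOINF)
    {k : ℕ} {F : MvPolynomial (Fin 3) ℝ} {p f : ℝ[X]}
    (hF : F.IsHomogeneous 8) (hH : Hom8 F p f) (hN : Pool.Agent.L7h17.OC.Nonsing F)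
    (hS : Pool.Agent.L7h17.OC.SplitsInto k F) : k ≤ 16 := by
  obtain ⟨C, h1, h2, h3, h4, h5⟩ := hS
  have hp0 : p.leadingCoeff ≠ 0 := by
    intro h0
    rw [leadingCoeff_eq_zero] at h0
    have := hH.1
    rw [h0, natDegree_zero] at this
    omega
  rcases lt_or_gt_of_ne hp0 with h | h
  · -- replace `F, p, f` by their negatives
    refine core hSAME hUD hEVN hC1 hC2 hPIE hNSA hRGP hINF hNI (F := -F) (C := C) (p := -p) (f := -f)
      hF.neg ⟨by rw [natDegree_neg]; exact hH.1, by rw [natDegree_neg]; exact hH.2.1, ?_⟩ ?_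
      ⟨h1, h2, ?_, h4, h5⟩ (by rw [leadingCoeff_neg]; linarith)
    · intro x y z
      rw [map_neg, hH.2.2 x y z, ← Finset.sum_neg_distrib]
      refine Finset.sum_congr rfl fun i _ => ?_
      rw [coeff_neg, coeff_neg]; ring
    · intro v hv hc
      refine hN v hv ⟨?_, fun i => ?_⟩
      · have := hc.1
        rw [map_neg] at this
        exact neg_eq_zero.1 this
      · have := hc.2 i
        rw [map_neg, map_neg] at this
        exact neg_eq_zero.1 this
    · rw [h3]
      ext v
      simp only [Pool.Agent.L7h17.OC.realCone, Set.mem_setOf_eq, map_neg, neg_eq_zero]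
  · exact core hSAME hUD hEVN hC1 hC2 hPIE hNSA hRGP hINF hNI hF hH hN ⟨h1, h2, h3, h4, h5⟩ h

end Pool.Agent.L7h12.SV
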