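import Pool.Agent.L7h12.SV.Stm

/-! # Project SV (helper12): part INF, the points at infinity -/

set_option autoImplicit false

noncomputable section

namespace Pool.Agent.L7h12.SV

open Polynomial Set Filter Topology

namespace InfP

theorem eval_inf {F : MvPolynomial (Fin 3) ℝ} {p f : ℝ[X]} (hH : Hom8 F p f) (x y : ℝ) :
    MvPolynomial.eval ![x, y, 0] F = p.leadingCoeff * x ^ 8 - f.leadingCoeff * y ^ 8 := by
  have hp : p.leadingCoeff = p.coeff 8 := by rw [leadingCoeff, hH.1]
  have hf : f.leadingCoeff = f.coeff 8 := by rw [leadingCoeff, hH.2.1]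
  rw [hH.2.2, hp, hf, Finset.sum_eq_single 8]
  · simp
  · intro i hi hne
    have : i < 9 := Finset.mem_range.1 hi
    rw [zero_pow (by omega), mul_zero]
  · intro h; exact absurd (Finset.mem_range.2 (by norm_num)) h

end InfP

open InfP

theorem s_INF : S_INF := by
  intro k F C p f hH hS hp hf
  have hcone : ∀ v, v ∈ Pool.Agent.L7h17.OC.realCone F → ∃ i, v ∈ C i := by
    intro v hv
    rw [← hS.cov] at hv
    exact Set.mem_iUnion.1 hv
  have hsub : ∀ i v, v ∈ C i → v ≠ 0 ∧ MvPolynomial.eval v F = 0 := by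
    intro i v hv
    have : v ∈ Pool.Agent.L7h17.OC.realCone F := by rw [← hS.cov]; exact Set.mem_iUnion.2 ⟨i, hv⟩
    exact this
  refine ⟨?_, ?_, ?_⟩
  · intro c hc h
    apply hcone
    refine ⟨?_, ?_⟩
    · intro h0
      have := congrFun h0 0
      simp at this
    · rw [eval_inf hH, h]; ring
  · intro c i hc hi R
    -- near the point at infinity only `C i`
    have hN : ∀ᶠ v in 𝓝 (![1, c, 0] : Fin 3 → ℝ), ∀ j, j ≠ i → v ∉ C j := by
      rw [Filter.eventually_all]
      intro j
      by_cases hj : j = i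
      · exact Filter.Eventually.of_forall fun v h => absurd hj h
      · obtain ⟨K, hK, hKC⟩ := hS.closed j
        have hnot : (![1, c, 0] : Fin 3 → ℝ) ∉ K := by
          intro hk
          have hmem : (![1, c, 0] : Fin 3 → ℝ) ∈ C j := by
            rw [hKC]; exact ⟨hk, (hsub i _ hi).1⟩
          exact Set.disjoint_left.1 (hS.disj i j (Ne.symm hj)) hi hmem
        have := hK.isOpen_compl.mem_nhds hnot
        filter_upwards [this] with v hv _ hvC
        rw [hKC] at hvC
        exact hv hvC.1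
    have hcont : Continuous (fun w : ℝ × ℝ => (![1, w.1, w.2] : Fin 3 → ℝ)) := by
      apply continuous_pi
      intro j
      fin_cases j
      · exact continuous_const
      · exact continuous_fst
      · exact continuous_snd
    have hN2 : ∀ᶠ w in 𝓝 ((c, 0) : ℝ × ℝ), ∀ j, j ≠ i → (![1, w.1, w.2] : Fin 3 → ℝ) ∉ C j := by
      have ht : Tendsto (fun w : ℝ × ℝ => (![1, w.1, w.2] : Fin 3 → ℝ)) (𝓝 (c, 0)) (𝓝 ![1, c, 0]) :=
        hcont.tendsto (c, 0)
      exact ht.eventually hN
    obtain ⟨δ0, hδ0, hball⟩ := Metric.eventually_nhds_iff.1 hN2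
    -- the function
    let G : ℝ → ℝ → ℝ := fun y z => ∑ i ∈ Finset.range 9, (p.coeff i * 1 ^ i - f.coeff i * y ^ i) * z ^ (8 - i)
    have hG : ∀ y z, MvPolynomial.eval ![1, y, z] F = G y z := fun y z => hH.2.2 1 y z
    have hG0 : ∀ y, G y 0 = p.leadingCoeff - f.leadingCoeff * y ^ 8 := by
      intro y; rw [← hG, eval_inf hH]; ring
    have hGz : ∀ y, Continuous (fun z => G y z) := by
      intro y; simp only [G]; fun_prop
    have hGy : ∀ z, Continuous (fun y => G y z) := by
      intro z; simp only [G]; fun_prop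
    have hc8 : p.leadingCoeff = f.leadingCoeff * c ^ 8 := by
      have := (hsub i _ hi).2
      rw [eval_inf hH] at this
      linarith
    have hcpos : 0 < |c| := abs_pos.2 hc
    set δ : ℝ := min (δ0 / 2) (|c| / 2) with hδ
    have hδpos : 0 < δ := lt_min (by linarith) (by linarith)
    have hδ1 : δ ≤ δ0 / 2 := min_le_left _ _
    have hδ2 : δ ≤ |c| / 2 := min_le_right _ _
    -- signs
    have hsign : G (c - δ) 0 * G (c + δ) 0 < 0 := by
      rw [hG0, hG0, hc8]
      have e1 : (f.leadingCoeff * c ^ 8 - f.leadingCoeff * (c - δ) ^ 8) *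
          (f.leadingCoeff * c ^ 8 - f.leadingCoeff * (c + δ) ^ 8) =
          f.leadingCoeff ^ 2 * ((c ^ 8 - (c - δ) ^ 8) * (c ^ 8 - (c + δ) ^ 8)) := by ring
      rw [e1]
      apply mul_neg_of_pos_of_neg (by positivity)
      have pw : ∀ s t : ℝ, |s| < |t| → s ^ 8 < t ^ 8 := by
        intro s t h
        have h8 : |s| ^ 8 < |t| ^ 8 := pow_lt_pow_left₀ h (abs_nonneg _) (by norm_num)
        have e : ∀ u : ℝ, |u| ^ 8 = u ^ 8 := fun u => by
          rw [show (8 : ℕ) = 2 * 4 by norm_num, pow_mul, pow_mul, sq_abs]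
        rwa [e, e] at h8
      rcases lt_or_gt_of_ne hc with h | h
      · rw [abs_of_neg h] at hδ2
        have t1 : c ^ 8 < (c - δ) ^ 8 := pw _ _ (by rw [abs_of_neg h, abs_of_neg (by linarith)]; linarith)
        have t2 : (c + δ) ^ 8 < c ^ 8 := pw _ _ (by rw [abs_of_neg h, abs_of_neg (by linarith)]; linarith)
        exact mul_neg_of_neg_of_pos (by linarith) (by linarith)
      · rw [abs_of_pos h] at hδ2
        have t1 : (c - δ) ^ 8 < c ^ 8 := pw _ _ (by rw [abs_of_pos h, abs_of_pos (by linarith)]; linarith)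
        have t2 : c ^ 8 < (c + δ) ^ 8 := pw _ _ (by rw [abs_of_pos h, abs_of_pos (by linarith)]; linarith)
        exact mul_neg_of_pos_of_neg (by linarith) (by linarith)
    have hcontH : Continuous (fun z => G (c - δ) z * G (c + δ) z) := (hGz _).mul (hGz _)
    have hev : ∀ᶠ z in 𝓝 (0 : ℝ), G (c - δ) z * G (c + δ) z < 0 :=
      (hcontH.tendsto 0).eventually (eventually_lt_nhds hsign)
    obtain ⟨δ1, hδ1', hz1⟩ := Metric.eventually_nhds_iff.1 hev
    -- for small `z` there is a point of `C i`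
    have hpoint : ∀ z : ℝ, |z| < δ1 → |z| < δ0 → ∃ y, |y - c| ≤ δ ∧ (![1, y, z] : Fin 3 → ℝ) ∈ C i := by
      intro z h1 h2
      have hz := hz1 (y := z) (by rw [Real.dist_eq, sub_zero]; exact h1)
      have hivt : ∃ y ∈ Icc (c - δ) (c + δ), G y z = 0 := by
        rcases mul_neg_iff.1 hz with ⟨u, v⟩ | ⟨u, v⟩
        · have := intermediate_value_Icc' (by linarith : c - δ ≤ c + δ) (hGy z).continuousOn
          obtain ⟨y, hy, hy0⟩ := this ⟨v.le, u.le⟩
          exact ⟨y, hy, hy0⟩
        · have := intermediate_value_Icc (by linarith : c - δ ≤ c + δ) (hGy z).continuousOn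
          obtain ⟨y, hy, hy0⟩ := this ⟨u.le, v.le⟩
          exact ⟨y, hy, hy0⟩
      obtain ⟨y, hy, hy0⟩ := hivt
      refine ⟨y, abs_le.2 ⟨by linarith [hy.1], by linarith [hy.2]⟩, ?_⟩
      obtain ⟨j, hj⟩ := hcone ![1, y, z] ⟨by
        intro h0
        have := congrFun h0 0
        simp at this, by rw [hG]; exact hy0⟩
      have hb := hball (y := (y, z)) (by
        rw [Prod.dist_eq, max_lt_iff]
        constructor
        · rw [Real.dist_eq]
          have : |y - c| ≤ δ := abs_le.2 ⟨by linarith [hy.1], by linarith [hy.2]⟩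
          linarith
        · show dist z 0 < δ0
          rw [Real.dist_eq, sub_zero]; exact h2) j
      by_cases hji : j = i
      · rw [hji] at hj; exact hj
      · exact absurd hj (hb hji)
    have haff : ∀ z : ℝ, z ≠ 0 → ∀ y, (![1, y, z] : Fin 3 → ℝ) ∈ C i → ((1 / z, y / z) : ℝ × ℝ) ∈ aff (C i) := by
      intro z hz y hy
      have := hS.cone i _ hy (1 / z) (one_div_ne_zero hz)
      have e : (![1 / z, y / z, 1] : Fin 3 → ℝ) = (1 / z) • ![1, y, z] := by
        ext j
        fin_cases j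
        · simp
        · simp [div_eq_inv_mul]
        · simp [hz]
      show (![1 / z, y / z, 1] : Fin 3 → ℝ) ∈ C i
      rw [e]; exact this
    have hcy : ∀ y, |y - c| ≤ δ → c ^ 2 / 2 ≤ c * y := by
      intro y hy
      have h1 : |c * (y - c)| ≤ |c| * (|c| / 2) := by
        rw [abs_mul]; exact mul_le_mul_of_nonneg_left (hy.trans hδ2) (abs_nonneg _)
      have h2 : |c| * (|c| / 2) = c ^ 2 / 2 := by rw [← sq_abs]; ring
      rw [h2] at h1
      have := (abs_le.1 h1).1
      nlinarith
    have hc2 : 0 < c ^ 2 / 2 := by positivity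
    -- a small positive `z`
    obtain ⟨z, hz0, hza, hzb, hz1, hz2⟩ : ∃ z : ℝ, 0 < z ∧ z < δ1 ∧ z < δ0 ∧ z * (|R| + 1) < 1 ∧
        z * (|R| + 1) < c ^ 2 / 2 := by
      have hR : 0 < |R| + 1 := by positivity
      refine ⟨min (min δ1 δ0) (min (1 / (|R| + 1)) ((c ^ 2 / 2) / (|R| + 1))) / 2, ?_, ?_, ?_, ?_, ?_⟩
      · have : 0 < min (min δ1 δ0) (min (1 / (|R| + 1)) ((c ^ 2 / 2) / (|R| + 1))) :=
          lt_min (lt_min hδ1' hδ0) (lt_min (by positivity) (by positivity))
        linarith
      · have h1 := min_le_left (min δ1 δ0) (min (1 / (|R| + 1)) ((c ^ 2 / 2) / (|R| + 1)))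
        have h2 := min_le_left δ1 δ0
        linarith
      · have h1 := min_le_left (min δ1 δ0) (min (1 / (|R| + 1)) ((c ^ 2 / 2) / (|R| + 1)))
        have h2 := min_le_right δ1 δ0
        linarith
      · have h1 := min_le_right (min δ1 δ0) (min (1 / (|R| + 1)) ((c ^ 2 / 2) / (|R| + 1)))
        have h2 := min_le_left (1 / (|R| + 1)) ((c ^ 2 / 2) / (|R| + 1))
        have h3 : min (min δ1 δ0) (min (1 / (|R| + 1)) ((c ^ 2 / 2) / (|R| + 1))) / 2 * (|R| + 1) ≤
            1 / (|R| + 1) / 2 * (|R| + 1) :=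
          mul_le_mul_of_nonneg_right (by linarith) hR.le
        have h4 : 1 / (|R| + 1) / 2 * (|R| + 1) = 1 / 2 := by field_simp
        linarith
      · have h1 := min_le_right (min δ1 δ0) (min (1 / (|R| + 1)) ((c ^ 2 / 2) / (|R| + 1)))
        have h2 := min_le_right (1 / (|R| + 1)) ((c ^ 2 / 2) / (|R| + 1))
        have h3 : min (min δ1 δ0) (min (1 / (|R| + 1)) ((c ^ 2 / 2) / (|R| + 1))) / 2 * (|R| + 1) ≤
            (c ^ 2 / 2) / (|R| + 1) / 2 * (|R| + 1) :=
          mul_le_mul_of_nonneg_right (by linarith) hR.le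
        have h4 : (c ^ 2 / 2) / (|R| + 1) / 2 * (|R| + 1) = c ^ 2 / 4 := by field_simp; norm_num
        linarith
    have hRR : R < |R| + 1 := lt_of_le_of_lt (le_abs_self R) (lt_add_one _)
    have hinv : ∀ t : ℝ, z * (|R| + 1) < t → R < t / z := by
      intro t ht
      rw [lt_div_iff₀ hz0]
      have : R * z ≤ (|R| + 1) * z := mul_le_mul_of_nonneg_right hRR.le hz0.le
      linarith
    constructor
    · obtain ⟨y, hy, hyC⟩ := hpoint z (by rw [abs_of_pos hz0]; exact hza) (by rw [abs_of_pos hz0]; exact hzb)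
      refine ⟨_, haff z hz0.ne' y hyC, hinv 1 hz1, ?_⟩
      show R < c * (y / z)
      rw [← mul_div_assoc]
      exact hinv _ (lt_of_lt_of_le hz2 (hcy y hy))
    · obtain ⟨y, hy, hyC⟩ := hpoint (-z) (by rw [abs_neg, abs_of_pos hz0]; exact hza)
        (by rw [abs_neg, abs_of_pos hz0]; exact hzb)
      refine ⟨_, haff (-z) (neg_ne_zero.2 hz0.ne') y hyC, ?_, ?_⟩
      · show 1 / (-z) < -R
        rw [div_neg]
        have := hinv 1 hz1
        linarith
      · show c * (y / (-z)) < -R
        rw [div_neg, mul_neg, ← mul_div_assoc]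
        have := hinv _ (lt_of_lt_of_le hz2 (hcy y hy))
        linarith
  · intro i v hv h2
    obtain ⟨hv0, hvF⟩ := hsub i v hv
    have e : v = ![v 0, v 1, 0] := by
      ext j; fin_cases j
      · rfl
      · rfl
      · exact h2
    rw [e, eval_inf hH] at hvF
    have hx : v 0 ≠ 0 := by
      intro h0
      rw [h0] at hvF
      have h1 : f.leadingCoeff * v 1 ^ 8 = 0 := by
        have : (0 : ℝ) ^ 8 = 0 := by norm_num
        rw [this] at hvF; linarith
      have h3 : v 1 = 0 := pow_eq_zero_iff (by norm_num) |>.1 ((mul_eq_zero.1 h1).resolve_left hf.ne')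
      apply hv0
      rw [e, h0, h3]
      ext j; fin_cases j <;> rfl
    have hy : v 1 ≠ 0 := by
      intro h0
      rw [h0] at hvF
      have h1 : p.leadingCoeff * v 0 ^ 8 = 0 := by
        have : (0 : ℝ) ^ 8 = 0 := by norm_num
        rw [this] at hvF; linarith
      exact hx (pow_eq_zero_iff (by norm_num) |>.1 ((mul_eq_zero.1 h1).resolve_left hp.ne'))
    refine ⟨v 1 / v 0, div_ne_zero hy hx, ?_⟩
    have := hS.cone i v hv (v 0)⁻¹ (inv_ne_zero hx)
    have e2 : (![1, v 1 / v 0, 0] : Fin 3 → ℝ) = (v 0)⁻¹ • v := by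
      ext j
      fin_cases j
      · simp [hx]
      · simp [div_eq_inv_mul]
      · simp [h2]
    rw [e2]; exact this

end Pool.Agent.L7h12.SV
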