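import Pool.Agent.L7h12.SV.Stm

/-! # Project SV (helper12): parts SYM, UPDOWN, NOINF, CMB1 -/

set_option autoImplicit false

noncomputable section

namespace Pool.Agent.L7h12.SV

open Polynomial Set

theorem s_SYM : S_SYM := by
  intro p f K hK
  have hZ : Z f p = Prod.swap '' Z p f := by
    ext w
    constructor
    · intro h
      exact ⟨w.swap, (h : f.eval w.1 = p.eval w.2).symm, Prod.swap_swap w⟩
    · rintro ⟨v, hv, rfl⟩
      exact (hv : p.eval v.1 = f.eval v.2).symm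
  have hc : ∀ S : Set (ℝ × ℝ), IsClosed S → IsClosed (Prod.swap '' S) := fun S hS =>
    (Homeomorph.prodComm ℝ ℝ).isClosedMap S hS
  have hR : ∀ x, Rg (-p) x ↔ Rg p x := by
    intro x
    unfold Rg
    rw [derivative_neg, eval_neg, neg_ne_zero]
  refine ⟨⟨?_, hc K hK.closed, ?_⟩, ⟨?_, hK.closed, ?_⟩, ?_, hR, ?_, ?_⟩
  · rw [hZ]; exact Set.image_mono hK.sub
  · have : Z f p \ Prod.swap '' K = Prod.swap '' (Z p f \ K) := by
      rw [hZ, Set.image_sdiff Prod.swap_injective]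
    rw [this]; exact hc _ hK.rest
  · intro w hw
    show (-p).eval w.1 = (-f).eval w.2
    rw [eval_neg, eval_neg, (hK.sub hw : p.eval w.1 = f.eval w.2)]
  · have : Z (-p) (-f) = Z p f := by
      ext w
      show (-p).eval w.1 = (-f).eval w.2 ↔ p.eval w.1 = f.eval w.2
      rw [eval_neg, eval_neg, neg_inj]
    rw [this]; exact hK.rest
  · intro x
    unfold col
    rw [derivative_neg, roots_neg]
  · intro h x y hxy
    exact (h y x hxy.symm).symm
  · intro h x y hxy
    rw [eval_neg, eval_neg, neg_inj] at hxy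
    rw [derivative_neg, derivative_neg, eval_neg, eval_neg, neg_ne_zero, neg_ne_zero]
    exact h x y hxy

theorem s_UPDOWN (hU : S_UP) (hS : S_SYM) : S_UPDOWN := by
  intro p f K hp hf hns hK w hw h1 h2
  obtain ⟨_, hK', hcp, hRp, _, hn⟩ := hS p f K hK
  have hf' := hS f f {w | w.1 = w.2 ∧ False} ⟨by rintro x ⟨_, h⟩; exact h.elim,
    by simp, by
      have : (Z f f \ {w : ℝ × ℝ | w.1 = w.2 ∧ False}) = Z f f := by
        ext x; simp
      rw [this]
      exact isClosed_eq (f.continuous.comp continuous_fst) (f.continuous.comp continuous_snd)⟩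
  have hcf := hf'.2.2.1
  have hRf := hf'.2.2.2.1
  obtain ⟨σ, τ, hσ, hτ, a1, a2, a3⟩ := hU p f K hp hf hns hK w hw h1 h2
  obtain ⟨σ', τ', hσ', hτ', b1, b2, b3⟩ := hU (-p) (-f) K (by rwa [derivative_neg, natDegree_neg])
    (by rwa [derivative_neg, natDegree_neg]) (hn hns) hK' w hw ((hRp _).2 h1) ((hRf _).2 h2)
  have hcell : ∀ a b, Cell (-p) (-f) K a b → Cell p f K a b := by
    rintro a b ⟨v, hv, g1, g2, g3, g4⟩
    exact ⟨v, hv, (hRp _).1 g1, (hRf _).1 g2, by rw [← g3, hcp], by rw [← g4, hcf]⟩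
  have e1 : σ' = -σ := by
    rw [derivative_neg, eval_neg] at b1
    rcases hσ with h | h <;> rcases hσ' with h' | h' <;> rw [h] at a1 <;> rw [h'] at b1 <;>
      push_cast at a1 b1 <;> first | (exfalso; linarith) | (simp [h, h'])
  have e2 : τ' = -τ := by
    rw [derivative_neg, eval_neg] at b2
    rcases hτ with h | h <;> rcases hτ' with h' | h' <;> rw [h] at a2 <;> rw [h'] at b2 <;>
      push_cast at a2 b2 <;> first | (exfalso; linarith) | (simp [h, h'])
  refine ⟨σ, τ, hσ, hτ, a1, a2, a3, ?_⟩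
  rw [hcp, hcf, e1, e2] at b3
  rcases b3 with h | h | h
  · left; exact hcell _ _ h
  · right; left; exact hcell _ _ h
  · right; right
    push_cast at h
    exact h

theorem s_NOINF : S_NOINF := by
  intro F p f hH hneg v hv h2
  obtain ⟨hv0, hvF⟩ := hv
  have e : v = ![v 0, v 1, 0] := by
    ext j; fin_cases j
    · rfl
    · rfl
    · exact h2
  rw [e, hH.2.2] at hvF
  have h8 : ∑ i ∈ Finset.range 9, (p.coeff i * v 0 ^ i - f.coeff i * v 1 ^ i) * (0 : ℝ) ^ (8 - i) =
      p.coeff 8 * v 0 ^ 8 - f.coeff 8 * v 1 ^ 8 := by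
    rw [Finset.sum_eq_single 8]
    · simp
    · intro i hi hne
      have : i < 9 := Finset.mem_range.1 hi
      rw [zero_pow (by omega), mul_zero]
    · intro h; exact absurd (Finset.mem_range.2 (by norm_num)) h
  rw [h8] at hvF
  have hp : p.leadingCoeff = p.coeff 8 := by rw [leadingCoeff, hH.1]
  have hf : f.leadingCoeff = f.coeff 8 := by rw [leadingCoeff, hH.2.1]
  rw [hp, hf] at hneg
  have hx : 0 ≤ v 0 ^ 8 := by positivity
  have hy : 0 ≤ v 1 ^ 8 := by positivity
  have hxy : v 0 ^ 8 = 0 ∧ v 1 ^ 8 = 0 := by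
    rcases mul_neg_iff.1 hneg with ⟨h, h'⟩ | ⟨h, h'⟩
    · have t1 : 0 ≤ p.coeff 8 * v 0 ^ 8 := by positivity
      have t2 : 0 ≤ -(f.coeff 8 * v 1 ^ 8) := by nlinarith
      have s1 : p.coeff 8 * v 0 ^ 8 = 0 := by linarith
      have s2 : f.coeff 8 * v 1 ^ 8 = 0 := by linarith
      exact ⟨(mul_eq_zero.1 s1).resolve_left h.ne', (mul_eq_zero.1 s2).resolve_left h'.ne⟩
    · have t1 : 0 ≤ f.coeff 8 * v 1 ^ 8 := by positivity
      have t2 : 0 ≤ -(p.coeff 8 * v 0 ^ 8) := by nlinarith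
      have s1 : p.coeff 8 * v 0 ^ 8 = 0 := by linarith
      have s2 : f.coeff 8 * v 1 ^ 8 = 0 := by linarith
      exact ⟨(mul_eq_zero.1 s1).resolve_left h.ne, (mul_eq_zero.1 s2).resolve_left h'.ne'⟩
  apply hv0
  rw [e, pow_eq_zero_iff (by norm_num) |>.1 hxy.1, pow_eq_zero_iff (by norm_num) |>.1 hxy.2]
  ext j; fin_cases j <;> rfl

end Pool.Agent.L7h12.SV
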