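import Pool.Agent.L7h17.OC.Defs

/-!
# Project SV (MP_b7f146_ag): real plane octics with separated variables

A nonsingular real plane curve of degree 8 which in some real projective coordinates has an affine
equation `p(x) + q(y) = 0`, `p`, `q` of degree 8, has at most 16 ovals (sharp); so it is not an
M-curve.

Proof. Write `f = -q`, `Z = {p(x) = f(y)}`. The critical points of `p` and of `f` cut the plane in at
most `8 * 8` open rectangles (cells); the part of `Z` in a cell is connected (S_SAME). The arc of `Z` in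
a cell can be prolonged at both ends into two different neighbouring cells (S_UP, S_DOWN), or through
a point at infinity into the opposite corner cell (S_INF). So every component of the curve meets at
least 4 cells (S_CMB1, S_CMB2), and different components meet different cells.
-/

set_option autoImplicit false

noncomputable section

namespace Pool.Agent.L7h12.SV

open Polynomial Set

/-- the affine curve `p(x) = f(y)` -/
def Z (p f : ℝ[X]) : Set (ℝ × ℝ) := {w | p.eval w.1 = f.eval w.2}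

/-- a closed and open part of the curve -/
structure Piece (p f : ℝ[X]) (K : Set (ℝ × ℝ)) : Prop where
  sub : K ⊆ Z p f
  closed : IsClosed K
  rest : IsClosed (Z p f \ K)

/-- the number of critical points of `p` to the left of `x` -/
def col (p : ℝ[X]) (x : ℝ) : ℤ := ((p.derivative.roots.toFinset.filter (· < x)).card : ℤ)

/-- not a critical point -/
def Rg (p : ℝ[X]) (x : ℝ) : Prop := p.derivative.eval x ≠ 0

/-- the affine curve is nonsingular -/
def NS (p f : ℝ[X]) : Prop :=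
  ∀ x y, p.eval x = f.eval y → p.derivative.eval x ≠ 0 ∨ f.derivative.eval y ≠ 0

/-- the set `K` meets the cell `(a, b)` -/
def Cell (p f : ℝ[X]) (K : Set (ℝ × ℝ)) (a b : ℤ) : Prop :=
  ∃ w ∈ K, Rg p w.1 ∧ Rg f w.2 ∧ col p w.1 = a ∧ col f w.2 = b

/-- PART BOX (60 lines). Proof: let `E1` be the set of the `x ∈ uIcc x1 x2` such that `(x, y) ∈ K` for
some `y ∈ uIcc y1 y2`, `E2` the same for `Z \ K`. Both are closed (projections of compact sets:
`IsCompact.image`, `isCompact_uIcc.prod`), they cover `uIcc x1 x2` (intermediate value theorem for `f`: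
`p x ∈ uIcc (p x1) (p x2) = uIcc (f y1) (f y2)`, `intermediate_value_uIcc`) and are disjoint (`f` is
injective). `x1 ∈ E1` and the interval is connected, so `x2 ∈ E1`; by injectivity `(x2, y2) ∈ K`. -/
def S_BOX : Prop := ∀ (p f : ℝ[X]) (K : Set (ℝ × ℝ)), Piece p f K → ∀ x1 x2 y1 y2 : ℝ,
  (x1, y1) ∈ K → (x2, y2) ∈ Z p f →
  (∀ x ∈ uIcc x1 x2, p.eval x ∈ uIcc (p.eval x1) (p.eval x2)) →
  InjOn (fun y => f.eval y) (uIcc y1 y2) → (x2, y2) ∈ K

/-- PART MON (50 lines). No critical point strictly between `x1` and `x2`: strictly monotone. Proof: the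
derivative has a constant sign on `(x1, x2)` (intermediate value theorem), then
`strictMonoOn_of_deriv_pos`, `strictAntiOn_of_deriv_neg` on `Icc`. -/
def S_MON : Prop := ∀ (p : ℝ[X]) (x1 x2 : ℝ), x1 < x2 → (∀ x, x1 < x → x < x2 → Rg p x) →
  (StrictMonoOn (fun x => p.eval x) (Icc x1 x2) ∧ ∀ x, x1 < x → x < x2 → 0 < p.derivative.eval x) ∨
  (StrictAntiOn (fun x => p.eval x) (Icc x1 x2) ∧ ∀ x, x1 < x → x < x2 → p.derivative.eval x < 0)

/-- PART COL (70 lines). The function `col`. (For `p.derivative ≠ 0` the `roots` are the zeros.) -/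
def S_COL : Prop := ∀ (p : ℝ[X]), p.derivative ≠ 0 →
  (∀ x x', x ≤ x' → (∀ r, x ≤ r → r ≤ x' → Rg p r) → col p x' = col p x) ∧
  (∀ x x', x ≤ x' → Rg p x → Rg p x' → col p x = col p x' → ∀ r, x ≤ r → r ≤ x' → Rg p r) ∧
  (∀ x r x', x < r → r < x' → ¬ Rg p r → (∀ s, x ≤ s → s ≤ x' → s ≠ r → Rg p s) →
    col p x' = col p x + 1) ∧
  (∀ x, 0 ≤ col p x ∧ col p x ≤ p.derivative.natDegree) ∧
  (∀ x, Rg p x → col p x = 0 → ∀ r, r ≤ x → Rg p r) ∧
  (∀ x, (∀ r, r ≤ x → Rg p r) → col p x = 0)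

/-- PART SAME (60 lines; uses S_BOX, S_MON, S_COL). Points of the curve in the same cell lie in the same
pieces. Proof: by S_COL there is no critical point of `p` between `w.1` and `w'.1`, none of `f` between
`w.2` and `w'.2`; S_MON gives strict monotonicity on both intervals, so the hypotheses of S_BOX. -/
def S_SAME : Prop := ∀ (p f : ℝ[X]) (K : Set (ℝ × ℝ)), p.derivative ≠ 0 → f.derivative ≠ 0 →
  Piece p f K → ∀ w ∈ K, ∀ w' ∈ Z p f, Rg p w.1 → Rg f w.2 → Rg p w'.1 → Rg f w'.2 →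
  col p w.1 = col p w'.1 → col f w.2 = col f w'.2 → w' ∈ K

/-- PART LOC (60 lines). The curve near a point `(r, y)` with `f'(y) ≠ 0` is a graph over the `x`-axis:
for all `x` near `r` there is a point `(x, y') ∈ K` with `y'` near `y`. Proof: for small `δ` the numbers
`f(y - δ) - p(r)` and `f(y + δ) - p(r)` have opposite signs (the derivative is not `0`), so the same for
`x` near `r` (continuity) and the intermediate value theorem gives `y'`; `(x, y') ∈ Z` is near `(r, y)`,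
which is not in the closed set `Z \ K`, so `(x, y') ∈ K`. -/
def S_LOC : Prop := ∀ (p f : ℝ[X]) (K : Set (ℝ × ℝ)), Piece p f K → ∀ r y : ℝ, (r, y) ∈ K → Rg f y →
  ∀ ε : ℝ, 0 < ε → ∃ δ : ℝ, 0 < δ ∧ ∀ x, |x - r| < δ → ∃ y', |y' - y| < ε ∧ (x, y') ∈ K

/-- PART SYM (20 lines). Exchange of the variables, and of the signs. (`Z` and the derivatives.) -/
def S_SYM : Prop := ∀ (p f : ℝ[X]) (K : Set (ℝ × ℝ)), Piece p f K →
  Piece f p (Prod.swap '' K) ∧ Piece (-p) (-f) K ∧
  (∀ x, col (-p) x = col p x) ∧ (∀ x, Rg (-p) x ↔ Rg p x) ∧ (NS p f → NS f p) ∧ (NS p f → NS (-p) (-f))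

/-- `σ` is the direction in which `p` increases at `x0`, and `r` is the first critical point in this
direction. -/
def UpFin (p : ℝ[X]) (x0 σ r : ℝ) : Prop :=
  0 < σ * p.derivative.eval x0 ∧ 0 < σ * (r - x0) ∧ ¬ Rg p r ∧
    ∀ s, 0 ≤ σ * (s - x0) → 0 < σ * (r - s) → Rg p s

/-- the same if there is no critical point in this direction -/
def UpInf (p : ℝ[X]) (x0 σ : ℝ) : Prop :=
  0 < σ * p.derivative.eval x0 ∧ (∀ s, 0 ≤ σ * (s - x0) → Rg p s) ∧
    ∀ M : ℝ, ∃ x, 0 < σ * (x - x0) ∧ M < p.eval x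

/-- PART END (80 lines; uses S_MON). Proof: `σ` the sign of `p'(x0)`. If there are zeros of `p'` in this
direction let `r` be the nearest one (finite set). Otherwise `p` is strictly monotone in this direction
(S_MON, increasing for `σ = 1`) and a nonconstant polynomial tends to `±∞` in absolute value
(`Polynomial.tendsto_abs_atTop` or compare `p.comp (-X)` for `σ = -1`), so it is unbounded above. -/
def S_END : Prop := ∀ (p : ℝ[X]) (x0 : ℝ), 0 < p.derivative.natDegree → Rg p x0 →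
  ∃ σ : ℤ, (σ = 1 ∨ σ = -1) ∧ ((∃ r, UpFin p x0 σ r) ∨ UpInf p x0 σ)

/-- PART STEP (120 lines; uses S_BOX, S_MON, S_COL, S_LOC). Prolonging the arc through the vertical line
`x = r`. Hypotheses: `r` is the first critical point of `p` in the direction `σ` (in which `p`
increases), and there is a height `y1` in the direction `τ` (in which `f` increases) with
`p(r) < f(y1)` and no critical point of `f` from `y0` to `y1` (except possibly `y1`). Then `K` meets the
next cell in the direction `σ`. Proof: `p` is strictly monotone between `x0` and `r` (S_MON),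
`f(y0) = p(x0) < p(r) < f(y1)`, so `f(y) = p(r)` for some `y` strictly between `y0` and `y1`; S_BOX gives
`(r, y) ∈ K`; `Rg f y`, S_LOC with `ε` so small that there is no critical point of `f` within `ε` of `y`,
take `x = r + σ δ'` with small `δ'` so that there is no critical point of `p` between `r` and `x`
(inclusive of `x`); then `col f y' = col f y0` and `col p x = col p x0 + σ` by S_COL. -/
def S_STEP : Prop := ∀ (p f : ℝ[X]) (K : Set (ℝ × ℝ)), p.derivative ≠ 0 → f.derivative ≠ 0 →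
  Piece p f K → ∀ (x0 y0 r y1 : ℝ) (σ τ : ℤ), (σ = 1 ∨ σ = -1) → (τ = 1 ∨ τ = -1) → (x0, y0) ∈ K →
  Rg p x0 → Rg f y0 → UpFin p x0 σ r → 0 < (τ : ℝ) * f.derivative.eval y0 →
  0 < (τ : ℝ) * (y1 - y0) → (∀ s, 0 ≤ (τ : ℝ) * (s - y0) → 0 < (τ : ℝ) * (y1 - s) → Rg f s) →
  p.eval r < f.eval y1 → Cell p f K (col p x0 + σ) (col f y0)

/-- PART UP (100 lines; uses S_SYM, S_END, S_STEP). The upper end of the arc. Proof: S_END for `p` at
`x0` and for `f` at `y0`. Both finite (`r`, `s`): `p(r) ≠ f(s)` by `NS`; if `p(r) < f(s)` S_STEP with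
`y1 = s`; if `f(s) < p(r)` S_STEP for `f`, `p` and the swapped set (S_SYM). `p` finite, `f` infinite: there
is `y1` with `p(r) < f(y1)`, S_STEP. `f` finite, `p` infinite: symmetric. Both infinite: the last case. -/
def S_UP : Prop := ∀ (p f : ℝ[X]) (K : Set (ℝ × ℝ)), 0 < p.derivative.natDegree →
  0 < f.derivative.natDegree → NS p f → Piece p f K → ∀ w ∈ K, Rg p w.1 → Rg f w.2 →
  ∃ σ τ : ℤ, (σ = 1 ∨ σ = -1) ∧ (τ = 1 ∨ τ = -1) ∧ 0 < (σ : ℝ) * p.derivative.eval w.1 ∧
    0 < (τ : ℝ) * f.derivative.eval w.2 ∧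
    (Cell p f K (col p w.1 + σ) (col f w.2) ∨ Cell p f K (col p w.1) (col f w.2 + τ) ∨
      (UpInf p w.1 σ ∧ UpInf f w.2 τ))

/-- PART UPDOWN (40 lines; uses S_UP, S_SYM). Both ends; the lower end is the upper end for `-p`, `-f`,
with the directions `-σ`, `-τ`. -/
def S_UPDOWN : Prop := ∀ (p f : ℝ[X]) (K : Set (ℝ × ℝ)), 0 < p.derivative.natDegree →
  0 < f.derivative.natDegree → NS p f → Piece p f K → ∀ w ∈ K, Rg p w.1 → Rg f w.2 →
  ∃ σ τ : ℤ, (σ = 1 ∨ σ = -1) ∧ (τ = 1 ∨ τ = -1) ∧ 0 < (σ : ℝ) * p.derivative.eval w.1 ∧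
    0 < (τ : ℝ) * f.derivative.eval w.2 ∧
    (Cell p f K (col p w.1 + σ) (col f w.2) ∨ Cell p f K (col p w.1) (col f w.2 + τ) ∨
      (UpInf p w.1 σ ∧ UpInf f w.2 τ)) ∧
    (Cell p f K (col p w.1 - σ) (col f w.2) ∨ Cell p f K (col p w.1) (col f w.2 - τ) ∨
      (UpInf (-p) w.1 (-σ) ∧ UpInf (-f) w.2 (-τ)))

/-- PART EVN (80 lines; uses S_MON). A polynomial of degree 8 with positive leading coefficient: it is
bounded below; `p'` has a real zero; left of all critical points it decreases, right of all of them it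
increases. (`Polynomial.tendsto_atTop_of_leadingCoeff_nonneg`, and `p.comp (-X)` for the left side.) -/
def S_EVN : Prop := ∀ (p : ℝ[X]), p.natDegree = 8 → 0 < p.leadingCoeff →
  p.derivative.natDegree = 7 ∧ (∃ M : ℝ, ∀ x, M ≤ p.eval x) ∧ (∃ r, ¬ Rg p r) ∧
  (∀ x, (∀ s, s ≤ x → Rg p s) → p.derivative.eval x < 0) ∧
  (∀ x, (∀ s, x ≤ s → Rg p s) → 0 < p.derivative.eval x)

/-- PART CMB1 (60 lines), pure combinatorics. Proof: colour `(a, b)` by the parity of `a + b`. Let `t ∈ T`,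
`u` its upper and `d` its lower neighbour, `u ≠ d`; `u` has two different neighbours in `T`, one of them,
`w`, is not `t`; `w ≠ d` by parity. -/
def S_CMB1 : Prop := ∀ T : Set (ℤ × ℤ), T.Finite → T.Nonempty →
  (∀ t ∈ T, ∃ σ τ : ℤ, (σ = 1 ∨ σ = -1) ∧ (τ = 1 ∨ τ = -1) ∧
    ((t.1 + σ, t.2) ∈ T ∨ (t.1, t.2 + τ) ∈ T) ∧ ((t.1 - σ, t.2) ∈ T ∨ (t.1, t.2 - τ) ∈ T)) →
  4 ≤ T.ncard

/-- PART CMB2 (80 lines), pure combinatorics. Proof: if no corner `(0 or A, 0 or B)` is in `T` then as in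
S_CMB1. If `t ∈ T` is a corner then the first alternatives are outside of the range, so the opposite
corner `t'` is in `T`; let `w`, `w'` be the lower neighbours of `t`, `t'`; if `w ≠ w'` we have four
elements; otherwise `A = B = 1`, `w` is one of the two other corners, and its opposite corner is in `T`
too. -/
def S_CMB2 : Prop := ∀ (A B : ℤ) (T : Set (ℤ × ℤ)), 1 ≤ A → 1 ≤ B → T.Finite → T.Nonempty →
  (∀ t ∈ T, 0 ≤ t.1 ∧ t.1 ≤ A ∧ 0 ≤ t.2 ∧ t.2 ≤ B) →
  (∀ t ∈ T, ∃ σ τ : ℤ, (σ = 1 ∨ σ = -1) ∧ (τ = 1 ∨ τ = -1) ∧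
    (t.1 = A → σ = 1) ∧ (t.1 = 0 → σ = -1) ∧ (t.2 = B → τ = 1) ∧ (t.2 = 0 → τ = -1) ∧
    ((t.1 + σ, t.2) ∈ T ∨ (t.1, t.2 + τ) ∈ T ∨
      ((t.1 = 0 ∨ t.1 = A) ∧ (t.2 = 0 ∨ t.2 = B) ∧ (A - t.1, B - t.2) ∈ T)) ∧
    ((t.1 - σ, t.2) ∈ T ∨ (t.1, t.2 - τ) ∈ T)) →
  4 ≤ T.ncard

/-! ## The projective curve -/

/-- The form `F` is `p(x) - f(y)`, made homogeneous of degree 8. -/
def Hom8 (F : MvPolynomial (Fin 3) ℝ) (p f : ℝ[X]) : Prop :=
  p.natDegree = 8 ∧ f.natDegree = 8 ∧ ∀ x y z : ℝ, MvPolynomial.eval ![x, y, z] F =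
    ∑ i ∈ Finset.range 9, (p.coeff i * x ^ i - f.coeff i * y ^ i) * z ^ (8 - i)

/-- The pieces of the real part (the clauses of `SplitsInto`). -/
structure Spl (k : ℕ) (F : MvPolynomial (Fin 3) ℝ) (C : Fin k → Set (Fin 3 → ℝ)) : Prop where
  ne : ∀ i, (C i).Nonempty
  disj : ∀ i j, i ≠ j → Disjoint (C i) (C j)
  cov : (⋃ i, C i) = Pool.Agent.L7h17.OC.realCone F
  cone : ∀ i, ∀ v ∈ C i, ∀ c : ℝ, c ≠ 0 → c • v ∈ C i
  closed : ∀ i, ∃ K : Set (Fin 3 → ℝ), IsClosed K ∧ C i = K ∩ {v | v ≠ 0}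

/-- the affine part -/
def aff (C : Set (Fin 3 → ℝ)) : Set (ℝ × ℝ) := {w | ![w.1, w.2, 1] ∈ C}

/-- PART PIE (60 lines). The affine parts are pieces of `Z`, pairwise disjoint. Proof: `F(x, y, 1) =
p(x) - f(y)` (`Polynomial.eval_eq_sum_range'`); preimages of closed sets under `w ↦ (w.1, w.2, 1)`, which
is never `0`; `Z \ aff (C i)` is the finite union of the other `aff (C j)`. -/
def S_PIE : Prop := ∀ (k : ℕ) (F : MvPolynomial (Fin 3) ℝ) (C : Fin k → Set (Fin 3 → ℝ)) (p f : ℝ[X]),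
  Hom8 F p f → Spl k F C → (∀ i, Piece p f (aff (C i))) ∧
    ∀ i j, i ≠ j → Disjoint (aff (C i)) (aff (C j))

/-- PART NSA (60 lines). Affine nonsingularity. Proof: at the complex point `(x, y, 1)` the polynomial
`F` and its partial derivatives: `F = p(x) - f(y)`, `F_x = p'(x)`, `F_y = - f'(y)`, and by Euler's
relation (`F` is homogeneous; or directly) `F_z = 8 F - x F_x - y F_y = 0`. First one needs
`F = ∑ i, (p_i X_0^i - f_i X_1^i) X_2^(8-i)` as a polynomial (`MvPolynomial.funext`). -/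
def S_NSA : Prop := ∀ (F : MvPolynomial (Fin 3) ℝ) (p f : ℝ[X]), F.IsHomogeneous 8 → Hom8 F p f →
  Pool.Agent.L7h17.OC.Nonsing F → NS p f

/-- PART RGP (60 lines; uses S_LOC, S_SYM). A nonempty piece contains a point with both coordinates
regular. Proof: let `(x, y) ∈ K`; by `NS` one of the coordinates is regular, say `Rg f y` (otherwise swap);
S_LOC with `ε` such that `Rg f` holds within `ε` of `y`, and `x'` near `x` with `Rg p x'` (finitely many
critical points). -/
def S_RGP : Prop := ∀ (p f : ℝ[X]) (K : Set (ℝ × ℝ)), p.derivative ≠ 0 → f.derivative ≠ 0 → NS p f →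
  Piece p f K → K.Nonempty → ∃ w ∈ K, Rg p w.1 ∧ Rg f w.2

/-- PART INF (150 lines). The points at infinity, `p` and `f` with positive leading coefficients
`a`, `b`; they are `(1, c, 0)` with `a = b c ^ 8`, `c > 0` or `c < 0`. For every `i` with
`(1, c, 0) ∈ C i` and every `R` there are points of `aff (C i)` with `x > R` and `c y > R` and points
with `x < -R` and `c y < -R`. Proof: `G(y, z) = F(1, y, z)` is continuous, `G(c - δ, 0)` and
`G(c + δ, 0)` have opposite signs (`G(y, 0) = a - b y ^ 8`), so for all small `z` there is `y` with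
`|y - c| < δ`, `G(y, z) = 0`. The point `(1, y, z)` is in the real cone, near `(1, c, 0)`, so not in the
other `C j` (closed), so in `C i`. For `z ≠ 0` the point `(1 / z, y / z)` is in `aff (C i)`; `z > 0` small
and `z < 0` small give the two claims. The second statement: every point of `C i` with third coordinate
`0` is a multiple of `(1, c, 0)` with such a `c`. -/
def S_INF : Prop := ∀ (k : ℕ) (F : MvPolynomial (Fin 3) ℝ) (C : Fin k → Set (Fin 3 → ℝ)) (p f : ℝ[X]),
  Hom8 F p f → Spl k F C → 0 < p.leadingCoeff → 0 < f.leadingCoeff →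
  (∀ c : ℝ, c ≠ 0 → p.leadingCoeff = f.leadingCoeff * c ^ 8 → ∃ i, ![1, c, 0] ∈ C i) ∧
  (∀ (c : ℝ) (i : Fin k), c ≠ 0 → ![1, c, 0] ∈ C i → ∀ R : ℝ,
    (∃ w ∈ aff (C i), R < w.1 ∧ R < c * w.2) ∧ ∃ w ∈ aff (C i), w.1 < -R ∧ c * w.2 < -R) ∧
  (∀ (i : Fin k) (v : Fin 3 → ℝ), v ∈ C i → v 2 = 0 → ∃ c : ℝ, c ≠ 0 ∧ ![1, c, 0] ∈ C i)

/-- PART NOINF (30 lines). If the leading coefficients have different signs there are no points at
infinity. -/
def S_NOINF : Prop := ∀ (F : MvPolynomial (Fin 3) ℝ) (p f : ℝ[X]), Hom8 F p f →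
  p.leadingCoeff * f.leadingCoeff < 0 → ∀ v ∈ Pool.Agent.L7h17.OC.realCone F, v 2 ≠ 0

/-- PART EX (150 lines). The example `T_8(x) + T_8(y) + 1/10 = 0` (`T_8 = 128 x^8 - 256 x^6 + 160 x^4 -
32 x^2 + 1`). Nonsingular: the partial derivatives vanish at a complex point with `z = 1` only if
`T_8(x), T_8(y) ∈ {1, -1}` (`T_8' = 8 U_7`, `T_8 ^ 2 - 1 = (x ^ 2 - 1) U_7 ^ 2`), so the sum is not
`-1/10`; for `z = 0` only if `x = y = 0`. `T_8 = 1` for `x = 0`, `x ^ 2 = 1/2` and `T_8 ≥ 1` for `x ^ 2 ≥ 1`,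
and `T_8 ≥ -1` always; so the curve does not meet these lines, nor infinity. The 16 products of the
intervals `(-1, -1/√2), (-1/√2, 0), (0, 1/√2), (1/√2, 1)` are separated by them; each contains a point of
the curve (`T_8 + T_8 + 1/10 = -19/10 < 0` at the point with both coordinates minima, zeros of
`T_4 = 8 x^4 - 8 x^2 + 1`, positive on the boundary: intermediate value theorem on a segment). -/
def S_EX : Prop := ∃ (F : MvPolynomial (Fin 3) ℝ) (p f : ℝ[X]), F.IsHomogeneous 8 ∧ Hom8 F p f ∧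
  Pool.Agent.L7h17.OC.Nonsing F ∧ Pool.Agent.L7h17.OC.SplitsInto 16 F

end Pool.Agent.L7h12.SV
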