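import Pool.Agent.L7h12.SV.Fin
import Pool.Agent.L7h12.SV.Sym
import Pool.Agent.L7h6.SV.Box
import Pool.Agent.L7h65.SV.Same
import Pool.Agent.L7h79.SV.Mon
import Pool.Agent.L7h79.SV.Up
import Pool.Agent.L7h89.SV.Step
import Pool.Agent.L7h56.SV.Loc
import Pool.Agent.L7h42.SV.Col
import Pool.Agent.L7h42.SV.Cmb2
import Pool.Agent.L7h25.SV.Pie
import Pool.Agent.L7h25.SV.Nsa
import Pool.Agent.L7h33.SV.Ex
import Pool.Agent.L7h32.OS.Stm
import Pool.Agent.L7h33.SV.Evn
import Pool.Agent.L7h12.SV.Inf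

/-! # Project SV (MP_b7f146_ag): the bound 16 without hypotheses

Parts: helper6 (BOX), helper65 (SAME, CMB1), helper79 (MON, END, UP), helper89 (STEP), helper56 (LOC, RGP),
helper42 (COL, CMB2), helper25 (PIE, NSA), helper33 (EX, EVN), helper12 (SYM, UPDOWN, NOINF, INF). -/

set_option autoImplicit false

namespace Pool.Agent.L7h12.SV

open Polynomial

theorem hBOX : S_BOX := Pool.Agent.L7h6.SV.s_BOX
theorem hMON : S_MON := Pool.Agent.L7h79.SV.s_MON
theorem hCOL : S_COL := Pool.Agent.L7h42.SV.s_COL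
theorem hLOC : S_LOC := Pool.Agent.L7h56.SV.loc
theorem hSAME : S_SAME := Pool.Agent.L7h65.SV.s_SAME hBOX hMON hCOL
theorem hSTEP : S_STEP := Pool.Agent.L7h89.SV.s_STEP hBOX hMON hCOL hLOC
theorem hEND : S_END := Pool.Agent.L7h79.SV.s_END hMON
theorem hUP : S_UP := Pool.Agent.L7h79.SV.s_UP s_SYM hEND hSTEP
theorem hUPDOWN : S_UPDOWN := s_UPDOWN hUP s_SYM
theorem hEVN : S_EVN := Pool.Agent.L7h33.SV.s_EVN
theorem hRGP : S_RGP := Pool.Agent.L7h56.SV.rgp

/-- A nonsingular real octic `p(x) = f(y)`, `p`, `f` of degree 8, has at most 16 components. -/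
theorem bound16 {k : ℕ} {F : MvPolynomial (Fin 3) ℝ} {p f : ℝ[X]} (hF : F.IsHomogeneous 8)
    (hH : Hom8 F p f) (hN : Pool.Agent.L7h17.OC.Nonsing F)
    (hS : Pool.Agent.L7h17.OC.SplitsInto k F) : k ≤ 16 :=
  bound hSAME hUPDOWN hEVN Pool.Agent.L7h65.SV.s_CMB1 Pool.Agent.L7h42.SV.s_CMB2
    Pool.Agent.L7h25.SV.s_PIE Pool.Agent.L7h25.SV.s_NSA hRGP s_INF s_NOINF
    hF hH hN hS

/-- The same in the notation of the project OS (helper32): `F = A(x,z) + B(y,z)`, both with a nonzero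
coefficient of degree 8. -/
theorem bound_sep {k : ℕ} {F : MvPolynomial (Fin 3) ℝ} {a b : ℕ → ℝ}
    (hF : Pool.Agent.L7h32.OS.Sep F a b) (ha : a 8 ≠ 0) (hb : b 8 ≠ 0)
    (hN : Pool.Agent.L7h17.OC.Nonsing F) (hS : Pool.Agent.L7h17.OC.SplitsInto k F) : k ≤ 16 := by
  have hc : ∀ a : ℕ → ℝ, ∀ i < 9, (Pool.Agent.L7h32.OS.pol a).coeff i = a i := by
    intro a i hi
    unfold Pool.Agent.L7h32.OS.pol
    rw [finsetSum_coeff]
    simp only [coeff_C_mul, coeff_X_pow]
    rw [Finset.sum_eq_single i]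
    · simp
    · intro j _ hj; rw [if_neg (Ne.symm hj), mul_zero]
    · intro h; exact absurd (Finset.mem_range.2 hi) h
  have hd : ∀ a : ℕ → ℝ, a 8 ≠ 0 → (Pool.Agent.L7h32.OS.pol a).natDegree = 8 := by
    intro a ha
    apply le_antisymm
    · unfold Pool.Agent.L7h32.OS.pol
      refine natDegree_sum_le_of_forall_le _ _ fun i hi => ?_
      refine (natDegree_C_mul_X_pow_le _ _).trans ?_
      have := Finset.mem_range.1 hi
      omega
    · apply le_natDegree_of_ne_zero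
      rw [hc a 8 (by norm_num)]
      exact ha
  refine bound16 (p := Pool.Agent.L7h32.OS.pol a) (f := -Pool.Agent.L7h32.OS.pol b) ?_
    ⟨hd a ha, by rw [natDegree_neg]; exact hd b hb, ?_⟩ hN hS
  · rw [hF]
    refine MvPolynomial.IsHomogeneous.sum _ _ _ fun i hi => ?_
    have h8 : i + (8 - i) = 8 := by have := Finset.mem_range.1 hi; omega
    have h := ((MvPolynomial.isHomogeneous_C_mul_X_pow (a i) (0 : Fin 3) i).add
      (MvPolynomial.isHomogeneous_C_mul_X_pow (b i) (1 : Fin 3) i)).mul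
      (MvPolynomial.isHomogeneous_X_pow (R := ℝ) (2 : Fin 3) (8 - i))
    rw [h8] at h
    exact h
  · intro x y z
    rw [hF, map_sum]
    refine Finset.sum_congr rfl fun i hi => ?_
    have h9 : i < 9 := Finset.mem_range.1 hi
    rw [coeff_neg, hc a i h9, hc b i h9]
    simp only [map_mul, map_add, map_pow, MvPolynomial.eval_C, MvPolynomial.eval_X]
    simp

/-- There is one with 16 components. -/
theorem example16 : S_EX := Pool.Agent.L7h33.SV.s_EX

end Pool.Agent.L7h12.SV
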